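import Pool.Agent.Helper52.EHP.Basic
import Pool.Agent.Helper63.E38.Upper

/-!
# M11 UPPER: the upper bound
-/

open Real MeasureTheory Set

namespace EHP

namespace UpperAux

theorem hk_half (k : ℝ) : Pool.Agent.Helper63.E38.hk k / 2 = H k := by
  unfold Pool.Agent.Helper63.E38.hk H
  ring

theorem xw_eq {k w : ℝ} (hw : w ≠ 0) : Pool.Agent.Helper63.E38.xw k w = X k w := by
  have h := hk_half k
  have h2 : Pool.Agent.Helper63.E38.hk k = 2 * H k := by linarith
  unfold Pool.Agent.Helper63.E38.xw X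
  rw [h2]
  field_simp
  ring

theorem gr_eq {k w : ℝ} (h1 : k * w - 1 ≠ 0) (h2 : w - k ≠ 0) :
    gr k w = log (k * w - 1) - log (w - k) := by
  unfold gr
  have h3 : k - w ≠ 0 := by
    intro h
    apply h2
    linarith
  rw [Real.log_div h1 h3, ← Real.log_neg_eq_log (k - w), neg_sub]

/-- from a multiset of roots to the family -/
theorem mem_fam {S : Multiset ℝ} (hS : S ≠ 0) (hmem : ∀ t ∈ S, t ∈ Icc (-1 : ℝ) 1) :
    ∃ f ∈ Fam, sublevel f = Pool.Agent.Helper63.E38.sub S := by
  obtain ⟨l, rfl⟩ := Quot.exists_rep S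
  have hl : l ≠ [] := by
    rintro rfl
    exact hS rfl
  refine ⟨∏ i : Fin l.length, (Polynomial.X - Polynomial.C (l.get i)),
    ⟨l.length, List.length_pos_iff.2 hl, fun i => l.get i, fun i => hmem _ ?_, rfl⟩, ?_⟩
  · exact List.get_mem l i
  · ext x
    unfold sublevel Pool.Agent.Helper63.E38.sub
    simp only [Set.mem_ofPred_eq]
    have e1 : (∏ i : Fin l.length, (Polynomial.X - Polynomial.C (l.get i))).eval x
        = (l.map fun t => x - t).prod := by
      rw [Polynomial.eval_prod]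
      simp only [Polynomial.eval_sub, Polynomial.eval_X, Polynomial.eval_C]
      exact Fin.prod_univ_fun_getElem l (fun t => x - t)
    have e2 : (Multiset.map (fun t => x - t) (Quot.mk _ l : Multiset ℝ)).prod
        = (l.map fun t => x - t).prod := by
      change (Multiset.map (fun t => x - t) (l : Multiset ℝ)).prod = _
      rw [Multiset.map_coe, Multiset.prod_coe]
    rw [e1, e2]

end UpperAux

open UpperAux

theorem upper {k u v : ℝ} (hk : 1 < k) (hu : 1 < u) (huk : u < k) (hkv : k < v)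
    (eu : log u * log k = Lam k * gr k u) (ev : log v * log k = Lam k * gr k v) {ε : ℝ} (hε : 0 < ε) :
    ∃ f ∈ Fam, (volume (sublevel f)).toReal ≤ X k v - X k u + ε := by
  have hlogk : 0 < log k := Real.log_pos hk
  have hu0 : u ≠ 0 := by linarith
  have hv0 : v ≠ 0 := by linarith
  have hβ : Pool.Agent.Helper63.E38.beta k (Lam k / log k) = 0 := by
    unfold Pool.Agent.Helper63.E38.beta
    rw [hk_half, div_mul_cancel₀ _ hlogk.ne']
    unfold H Lam
    have : log (2 * k / (k + 1) ^ 2) = -log ((k + 1) ^ 2 / (2 * k)) := by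
      rw [← Real.log_inv, inv_div]
    rw [this]
    ring
  have hroot : ∀ w : ℝ, k * w - 1 ≠ 0 → w - k ≠ 0 → log w * log k = Lam k * gr k w →
      Pool.Agent.Helper63.E38.Fk k (Lam k / log k) w = 0 := by
    intro w h1 h2 h3
    unfold Pool.Agent.Helper63.E38.Fk
    rw [← gr_eq h1 h2]
    field_simp
    linarith
  have hku : k * u - 1 ≠ 0 := by
    have : 1 < k * u := by nlinarith
    linarith
  have hkv' : k * v - 1 ≠ 0 := by
    have : 1 < k * v := by nlinarith
    linarith
  obtain ⟨S, hS0, hS1, hS2⟩ := Pool.Agent.Helper63.E38.upper_bound hk hu huk hkv hβ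
    (hroot u hku (by linarith) eu) (hroot v hkv' (by linarith) ev) hε
  obtain ⟨f, hf, hfS⟩ := mem_fam hS0 hS1
  refine ⟨f, hf, ?_⟩
  rw [hfS]
  rw [xw_eq hu0, xw_eq hv0] at hS2
  refine ENNReal.toReal_le_of_le_ofReal ?_ hS2
  have h1 := Pool.Agent.Helper63.E38.xw_lt hk hu.le (huk.trans hkv)
  rw [xw_eq hu0, xw_eq hv0] at h1
  linarith

end EHP
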