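import Pool.Agent.Helper52.EHP.Basic
import Pool.Agent.Helper63.E38.Potential

/-!
# M4 POT: potentials of the Poisson kernels on the band
-/

open Real MeasureTheory Set

namespace EHP

/-- Poisson kernel -/
noncomputable def pk (r θ : ℝ) : ℝ := (1 - r ^ 2) / (1 + r ^ 2 - 2 * r * cos θ)

theorem pk_eq (r θ : ℝ) : pk r θ = Pool.Agent.Helper63.E38.pk r θ := rfl

theorem H_pos {k : ℝ} (hk : 1 < k) : 0 < H k := by
  unfold H
  positivity

theorem log_H {k : ℝ} (hk : 1 < k) : log (H k) = -Lam k := by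
  unfold H Lam
  rw [← Real.log_inv, inv_div]

theorem pot_J {k r φ : ℝ} (hk : 1 < k) (hr : |r| < 1) :
    (1 / π) * ∫ θ in (0:ℝ)..π, pk r θ * log (-1 + 2 * H k * (1 + cos θ) - (-1 + 2 * H k * (1 + cos φ)))
      = -Lam k + log (1 + r ^ 2 - 2 * r * cos φ) := by
  have hH := H_pos hk
  have h := Pool.Agent.Helper63.E38.pot_in (h := 2 * H k) (α := φ) (by positivity) hr
  have e : ∫ θ in (0:ℝ)..π, pk r θ * log (-1 + 2 * H k * (1 + cos θ) - (-1 + 2 * H k * (1 + cos φ)))
      = ∫ θ in (0:ℝ)..π, Pool.Agent.Helper63.E38.pk r θ *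
          log |2 * H k * cos φ - 2 * H k * cos θ| := by
    apply intervalIntegral.integral_congr
    intro θ _
    simp only [pk_eq]
    rw [Real.log_abs, ← Real.log_neg_eq_log (2 * H k * cos φ - 2 * H k * cos θ)]
    congr 2
    ring
  rw [e, h, mul_div_cancel_left₀ _ (two_ne_zero), log_H hk]
  have hpi := Real.pi_pos
  field_simp

theorem pot_out {k r w : ℝ} (hk : 1 < k) (hr : |r| < 1) (hw : 1 ≤ |w|) :
    (1 / π) * ∫ θ in (0:ℝ)..π, pk r θ * log (-1 + 2 * H k * (1 + cos θ) - X k w)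
      = -Lam k - log |w| + 2 * log |w - r| := by
  have hH := H_pos hk
  have hw0 : w ≠ 0 := by
    rintro rfl
    simp at hw
    linarith
  have h := Pool.Agent.Helper63.E38.pot_out (h := 2 * H k) (w := w) (by positivity) hw hr
  have e : ∫ θ in (0:ℝ)..π, pk r θ * log (-1 + 2 * H k * (1 + cos θ) - X k w)
      = ∫ θ in (0:ℝ)..π, Pool.Agent.Helper63.E38.pk r θ *
          log |2 * H k / 2 * (w + w⁻¹) - 2 * H k * cos θ| := by
    apply intervalIntegral.integral_congr
    intro θ _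
    simp only [pk_eq]
    rw [Real.log_abs, ← Real.log_neg_eq_log (2 * H k / 2 * (w + w⁻¹) - 2 * H k * cos θ)]
    congr 2
    unfold X
    field_simp
    ring
  rw [e, h, mul_div_cancel_left₀ _ (two_ne_zero), log_H hk]
  have hpi := Real.pi_pos
  field_simp

end EHP
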